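import Mathlib
import Pool.Agent.Helper358.BP7

/-!
# Nonseparable Banach spaces whose isomorphism class has infinite Banach-Mazur diameter
-/

set_option autoImplicit false

namespace Pool.Agent.Results.MP_76005e_an.LargeSystems

open Cardinal
open scoped ENNReal NNReal

universe u

/-- The Banach-Mazur distance `d(Y, Z) = inf ‖T‖ ‖T⁻¹‖`, over all linear isomorphisms `T` of `Y`
onto `Z`, as an element of `[0, ∞]`. -/
noncomputable def bmDist (𝕜 : Type) [RCLike 𝕜] (Y Z : Type u) [NormedAddCommGroup Y]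
    [NormedSpace 𝕜 Y] [NormedAddCommGroup Z] [NormedSpace 𝕜 Z] : ℝ≥0∞ :=
  ⨅ T : Y ≃L[𝕜] Z, ENNReal.ofReal (‖(T : Y →L[𝕜] Z)‖ * ‖(T.symm : Z →L[𝕜] Y)‖)

/-- `D(X) = sup d(Y, Z)`, over all Banach spaces `Y` and `Z` isomorphic to `X`, as an element of
`[0, ∞]`. -/
noncomputable def bmDiam (𝕜 : Type) [RCLike 𝕜] (X : Type u) [NormedAddCommGroup X]
    [NormedSpace 𝕜 X] : ℝ≥0∞ :=
  ⨆ (Y : Type u) (_ : NormedAddCommGroup Y) (_ : NormedSpace 𝕜 Y) (_ : CompleteSpace Y)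
    (Z : Type u) (_ : NormedAddCommGroup Z) (_ : NormedSpace 𝕜 Z) (_ : CompleteSpace Z)
    (_ : Nonempty (X ≃L[𝕜] Y)) (_ : Nonempty (X ≃L[𝕜] Z)), bmDist 𝕜 Y Z

/-- The density character: the least cardinality of a dense subset. -/
noncomputable def dens (X : Type u) [TopologicalSpace X] : Cardinal.{u} :=
  sInf {c | ∃ D : Set X, Dense D ∧ #D = c}

/-- `G` is a set of functionals of norm at most one such that, for some `c > 0`, the distance from
`x` to the linear span of `S` is at most `c⁻¹ sup {|g(x)| : g ∈ G}`. (For `S = ∅` this distance is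
`‖x‖`.) -/
def IsNormingModulo (𝕜 : Type) [RCLike 𝕜] {X : Type u} [NormedAddCommGroup X] [NormedSpace 𝕜 X]
    (S : Set X) (G : Set (StrongDual 𝕜 X)) : Prop :=
  (∀ g ∈ G, ‖g‖ ≤ 1) ∧ ∃ c > (0 : ℝ), ∀ x, ∃ g ∈ G,
    c * Metric.infDist x ((Submodule.span 𝕜 S : Submodule 𝕜 X) : Set X) ≤ ‖g x‖

/-- `G` is a norming set: functionals of norm at most one with `c ‖x‖ ≤ sup {|g(x)| : g ∈ G}` for
some `c > 0` and all `x`. -/
def IsNorming (𝕜 : Type) [RCLike 𝕜] {X : Type u} [NormedAddCommGroup X] [NormedSpace 𝕜 X]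
    (G : Set (StrongDual 𝕜 X)) : Prop :=
  (∀ g ∈ G, ‖g‖ ≤ 1) ∧ ∃ c > (0 : ℝ), ∀ x, ∃ g ∈ G, c * ‖x‖ ≤ ‖g x‖

/-- For every `δ > 0` there is a bounded `δ`-biorthogonal system of cardinality `μ`: points `x i`
of the unit ball and a bounded family of functionals `f i` with `f i (x i) = 1` and
`|f i (x j)| ≤ δ` for `i ≠ j`. -/
def AlmostBiorthogonal (𝕜 : Type) [RCLike 𝕜] (X : Type u) [NormedAddCommGroup X]
    [NormedSpace 𝕜 X] (μ : Cardinal.{u}) : Prop :=
  ∀ δ : ℝ, 0 < δ → ∃ (I : Type u) (x : I → X) (f : I → StrongDual 𝕜 X) (D : ℝ),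
    #I = μ ∧ (∀ i, ‖x i‖ ≤ 1) ∧ (∀ i, ‖f i‖ ≤ D) ∧ (∀ i, f i (x i) = 1) ∧
    ∀ i j, i ≠ j → ‖f i (x j)‖ ≤ δ

/-- There is a (possibly unbounded) biorthogonal system of cardinality `μ`. -/
def HasBiorthogonal (𝕜 : Type) [RCLike 𝕜] (X : Type u) [NormedAddCommGroup X]
    [NormedSpace 𝕜 X] (μ : Cardinal.{u}) : Prop :=
  ∃ (I : Type u) (x : I → X) (f : I → StrongDual 𝕜 X),
    #I = μ ∧ (∀ i, f i (x i) = 1) ∧ ∀ i j, i ≠ j → f i (x j) = 0

/-- The finite-dimensional spaces are not uniformly complemented in `X`: for every `C` there is a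
finite-dimensional `E` such that `‖a‖ ‖b‖ > C` whenever `a : E → X`, `b : X → E` and `b ∘ a = id`. -/
def NotUniformlyComplemented (𝕜 : Type) [RCLike 𝕜] (X : Type u) [NormedAddCommGroup X]
    [NormedSpace 𝕜 X] : Prop :=
  ∀ C : ℝ, ∃ (E : Type u) (_ : NormedAddCommGroup E) (_ : NormedSpace 𝕜 E)
    (_ : FiniteDimensional 𝕜 E), ∀ (a : E →L[𝕜] X) (b : X →L[𝕜] E), (∀ e, b (a e) = e) →
    C < ‖a‖ * ‖b‖

section

variable {𝕜 : Type} [RCLike 𝕜] {X : Type u} [NormedAddCommGroup X] [NormedSpace 𝕜 X]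

theorem diam_of_far (h : Pool.Agent.Helper358.BP.Far 𝕜 X) : bmDiam 𝕜 X = ∞ := by
  apply ENNReal.eq_top_of_forall_nnreal_le
  intro M
  obtain ⟨Y, Z, i1, i2, i3, i4, i5, i6, hY, hZ, h⟩ := h M
  have h1 : (M : ℝ≥0∞) ≤ bmDist 𝕜 Y Z := by
    apply le_iInf
    intro T
    rw [← ENNReal.ofReal_coe_nnreal]
    exact ENNReal.ofReal_le_ofReal (h T)
  refine h1.trans ?_
  unfold bmDiam
  exact le_iSup_of_le Y <| le_iSup_of_le i1 <| le_iSup_of_le i2 <| le_iSup_of_le i3 <|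
    le_iSup_of_le Z <| le_iSup_of_le i4 <| le_iSup_of_le i5 <| le_iSup_of_le i6 <|
    le_iSup_of_le hY <| le_iSup_of_le hZ le_rfl

theorem exists_dens (X : Type u) [TopologicalSpace X] : ∃ D : Set X, Dense D ∧ #D = dens X := by
  have hne : {c : Cardinal.{u} | ∃ D : Set X, Dense D ∧ #D = c}.Nonempty :=
    ⟨_, Set.univ, dense_univ, rfl⟩
  exact csInf_mem hne

theorem aleph0_lt_dens (X : Type u) [TopologicalSpace X]
    (hns : ¬ TopologicalSpace.SeparableSpace X) : ℵ₀ < dens X := by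
  obtain ⟨D, hD, hDc⟩ := exists_dens X
  by_contra hcon
  push Not at hcon
  apply hns
  rw [← hDc, Cardinal.le_aleph0_iff_set_countable] at hcon
  exact ⟨⟨D, hcon, hD⟩⟩

variable [CompleteSpace X]

theorem general {μ : Cardinal.{u}} (hμ : ℵ₀ < μ)
    (h : (∀ G₀ : Set (StrongDual 𝕜 X), IsNorming 𝕜 G₀ → μ ≤ #G₀) ∨ AlmostBiorthogonal 𝕜 X μ)
    (S : Set X) (hS : #S ≤ μ) (G : Set (StrongDual 𝕜 X)) (hG : #G < μ)
    (hGn : IsNormingModulo 𝕜 S G) : bmDiam 𝕜 X = ∞ := by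
  have hfam : Pool.Agent.Helper358.BP.AlmostBiorth 𝕜 X μ := by
    rcases h with h | h
    · exact Pool.Agent.Helper358.BP.almostBiorth_of_norming hμ (fun G₀ h1 h2 => h G₀ ⟨h1, h2⟩)
    · exact h
  obtain ⟨h1, c, hc, h2⟩ := hGn
  exact diam_of_far (Pool.Agent.Helper358.BP.crit hμ hfam S hS G hG h1 hc h2)

theorem normingModulo_dense {D : Set X} (hD : Dense D) : IsNormingModulo 𝕜 D {0} := by
  refine ⟨by simp, 1, one_pos, fun x => ⟨0, rfl, ?_⟩⟩
  have h1 : x ∈ closure ((Submodule.span 𝕜 D : Submodule 𝕜 X) : Set X) :=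
    closure_mono Submodule.subset_span (hD x)
  rw [Metric.mem_closure_iff_infDist_zero ⟨0, Submodule.zero_mem _⟩] at h1
  rw [h1]
  simp

theorem normingModulo_empty {G : Set (StrongDual 𝕜 X)} (hG : IsNorming 𝕜 G) :
    IsNormingModulo 𝕜 (∅ : Set X) G := by
  obtain ⟨h1, c, hc, h2⟩ := hG
  refine ⟨h1, c, hc, fun x => ?_⟩
  obtain ⟨g, hg, hgx⟩ := h2 x
  refine ⟨g, hg, le_trans ?_ hgx⟩
  have h3 : Metric.infDist x ((Submodule.span 𝕜 (∅ : Set X) : Submodule 𝕜 X) : Set X) ≤ ‖x‖ := by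
    have := Metric.infDist_le_dist_of_mem (x := x)
      (Submodule.zero_mem (Submodule.span 𝕜 (∅ : Set X)))
    rwa [dist_zero_right] at this
  gcongr

theorem almost_of_biorthogonal {μ : Cardinal.{u}} (hμ : ℵ₀ < μ) (hcof : ℵ₀ < μ.ord.cof)
    (h : HasBiorthogonal 𝕜 X μ) : AlmostBiorthogonal 𝕜 X μ := by
  obtain ⟨I, x, f, hI, hf1, hf0⟩ := h
  intro δ hδ
  have hx : ∀ i, 0 < ‖x i‖ := by
    intro i
    rw [norm_pos_iff]
    intro h0
    have := hf1 i
    rw [h0, map_zero] at this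
    exact zero_ne_one this
  choose n hn using fun i => exists_nat_ge (‖x i‖ * ‖f i‖)
  obtain ⟨m, hm⟩ := Cardinal.infinite_pigeonhole (fun i => ULift.up.{u} (n i))
    (by rw [hI]; exact hμ.le) (by rw [hI]; simpa using hcof)
  have hinv : ∀ i, ‖(((‖x i‖⁻¹ : ℝ) : 𝕜))‖ = ‖x i‖⁻¹ := fun i => by
    rw [RCLike.norm_ofReal, abs_of_pos (inv_pos.mpr (hx i))]
  refine ⟨(fun i => ULift.up.{u} (n i)) ⁻¹' {m}, fun i => ((‖x i.1‖⁻¹ : ℝ) : 𝕜) • x i.1,
    fun i => ((‖x i.1‖ : ℝ) : 𝕜) • f i.1, m.down, by rw [hm, hI], ?_, ?_, ?_, ?_⟩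
  · intro i
    rw [norm_smul, hinv, inv_mul_cancel₀ (hx i.1).ne']
  · intro i
    rw [norm_smul, RCLike.norm_ofReal, abs_of_pos (hx i.1)]
    have h1 : ULift.up.{u} (n i.1) = m := i.2
    have h2 := hn i.1
    have h3 : n i.1 = m.down := congrArg ULift.down h1
    rw [h3] at h2
    exact h2
  · intro i
    rw [smul_apply, map_smul, hf1, smul_eq_mul, smul_eq_mul, mul_one, ← RCLike.ofReal_mul,
      mul_inv_cancel₀ (hx i.1).ne', RCLike.ofReal_one]
  · intro i j hij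
    rw [smul_apply, map_smul, hf0 _ _ (fun h => hij (Subtype.ext h)), smul_zero, smul_zero,
      norm_zero]
    exact hδ.le

end

/-- **Theorem.** Let `X` be a nonseparable real or complex Banach space. Then `D(X) = ∞` in each of
the following cases.
1. Every norming set of functionals on `X` has at least `dens X` elements (equivalently, `X` does
   not embed isomorphically into `ℓ_∞(Γ)` for a set `Γ` with fewer than `dens X` elements).
2. For every `δ > 0` there is a bounded `δ`-biorthogonal system of cardinality `dens X`.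
3. There is a biorthogonal system of cardinality `dens X`, and `dens X` has uncountable cofinality.
4. There is a norming set `G` and an uncountable cardinal `μ > #G` such that for every `δ > 0` there
   is a bounded `δ`-biorthogonal system of cardinality `μ`.
5. `dens X` is a strong limit cardinal.
6. The finite-dimensional spaces are not uniformly complemented in `X`.
7. For some uncountable `μ`, either all norming sets have at least `μ` elements or there are bounded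
   `δ`-biorthogonal systems of cardinality `μ` for all `δ > 0`; and for some set `S` of at most `μ`
   vectors, some set of fewer than `μ` functionals controls the distance to the span of `S`. -/
theorem result (𝕜 : Type) [RCLike 𝕜] (X : Type u) [NormedAddCommGroup X] [NormedSpace 𝕜 X]
    [CompleteSpace X] (hns : ¬ TopologicalSpace.SeparableSpace X) :
    ((∀ G : Set (StrongDual 𝕜 X), IsNorming 𝕜 G → dens X ≤ #G) → bmDiam 𝕜 X = ∞) ∧
    (AlmostBiorthogonal 𝕜 X (dens X) → bmDiam 𝕜 X = ∞) ∧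
    (HasBiorthogonal 𝕜 X (dens X) → ℵ₀ < (dens X).ord.cof → bmDiam 𝕜 X = ∞) ∧
    (∀ (G : Set (StrongDual 𝕜 X)) (μ : Cardinal.{u}), IsNorming 𝕜 G → #G < μ → ℵ₀ < μ →
      AlmostBiorthogonal 𝕜 X μ → bmDiam 𝕜 X = ∞) ∧
    ((∀ μ < dens X, (2 : Cardinal.{u}) ^ μ < dens X) → bmDiam 𝕜 X = ∞) ∧
    (NotUniformlyComplemented 𝕜 X → bmDiam 𝕜 X = ∞) ∧
    (∀ (μ : Cardinal.{u}) (S : Set X) (G : Set (StrongDual 𝕜 X)), ℵ₀ < μ →
      ((∀ G₀ : Set (StrongDual 𝕜 X), IsNorming 𝕜 G₀ → μ ≤ #G₀) ∨ AlmostBiorthogonal 𝕜 X μ) →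
      #S ≤ μ → #G < μ → IsNormingModulo 𝕜 S G → bmDiam 𝕜 X = ∞) := by
  have hd := aleph0_lt_dens X hns
  obtain ⟨D, hD, hDc⟩ := exists_dens X
  have h0 : #({0} : Set (StrongDual 𝕜 X)) < dens X := by
    rw [mk_singleton]
    exact one_lt_aleph0.trans hd
  have h1 : (∀ G : Set (StrongDual 𝕜 X), IsNorming 𝕜 G → dens X ≤ #G) → bmDiam 𝕜 X = ∞ :=
    fun h => general hd (Or.inl h) D hDc.le {0} h0 (normingModulo_dense hD)
  have h2 : AlmostBiorthogonal 𝕜 X (dens X) → bmDiam 𝕜 X = ∞ :=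
    fun h => general hd (Or.inr h) D hDc.le {0} h0 (normingModulo_dense hD)
  refine ⟨h1, h2, ?_, ?_, ?_, ?_, ?_⟩
  · exact fun h hcof => h2 (almost_of_biorthogonal hd hcof h)
  · intro G μ hG hGμ hμ h
    exact general hμ (Or.inr h) ∅ (by simp) G hGμ (normingModulo_empty hG)
  · intro h
    apply h1
    intro G hG
    refine Pool.Agent.Helper358.BP.norming_of_strongLimit hd h ?_ G hG.2
    rw [← hDc]
    exact mk_set_le D
  · intro h
    apply diam_of_far
    apply Pool.Agent.Helper358.BP.far_of_fin _ h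
    intro hfin
    apply hns
    have : ProperSpace X := FiniteDimensional.proper_rclike 𝕜 X
    infer_instance
  · intro μ S G hμ h hS hG hGn
    exact general hμ h S hS G hG hGn

end Pool.Agent.Results.MP_76005e_an.LargeSystems
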